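import Pool.Agent.Lib.MP_f4bd1c_an.Retract

set_option autoImplicit false

/-! The fixed point property for groups, with retractions. -/

namespace FStarLib

open Filter Topology WeakDual

universe u v

section

variable {E : Type*} [NormedAddCommGroup E] [NormedSpace ℝ E]

/-- One map. -/
theorem Retr.fix_one [CompleteSpace E] {C X : Set (WeakDual ℝ E)} (hC : IsCompact C)
    (hconv : Convex ℝ C) (hX : Retr C X) (T : WeakDual ℝ E → WeakDual ℝ E)
    (hT : ∀ x ∈ X, T x ∈ X) (hTne : NE X T) (hTc : ContinuousOn T X) :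
    Retr C {x ∈ X | T x = x} := by
  obtain ⟨R, hR, hRid, hRne⟩ := hX.2.2
  have h := Retr.fix hC hconv hX R hR hRid hRne (fun _ : Unit => T) (fun _ => hT) (fun _ => hTc)
    (fun x => T (R x)) (fun x hx => hX.2.1 (hT _ (hR x hx)))
    (fun x hx y hy => (hTne _ (hR x hx) _ (hR y hy)).trans (hRne x hx y hy))
    (fun x hx h => by
      rw [hRid x hx]
      exact h ())
    1 zero_le_one (fun u hu _ => by
      rw [one_mul, nd_comm]
      have h1 := hRne u hu (T (R u)) (hX.2.1 (hT _ (hR u hu)))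
      rwa [hRid _ (hT _ (hR u hu))] at h1)
  simpa using h

theorem nd_sum {ι : Type*} (s : Finset ι) (w : ι → ℝ) (hw : ∀ i ∈ s, 0 ≤ w i)
    (a b : ι → WeakDual ℝ E) :
    nd (∑ i ∈ s, w i • a i) (∑ i ∈ s, w i • b i) ≤ ∑ i ∈ s, w i * nd (a i) (b i) := by
  unfold nd
  have e : toStrongDual (∑ i ∈ s, w i • a i) - toStrongDual (∑ i ∈ s, w i • b i) =
      ∑ i ∈ s, w i • (toStrongDual (a i) - toStrongDual (b i)) := by
    rw [← map_sub, ← Finset.sum_sub_distrib, map_sum]
    refine Finset.sum_congr rfl fun i _ => ?_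
    rw [← smul_sub, map_smul, map_sub]
  rw [e]
  refine (norm_sum_le _ _).trans (Finset.sum_le_sum fun i hi => ?_)
  rw [norm_smul, Real.norm_of_nonneg (hw i hi)]

/-- An action of a group on a set by nonexpansive weak-star continuous maps. -/
structure Act (G : Type*) [Group G] (X : Set (WeakDual ℝ E))
    (T : G → WeakDual ℝ E → WeakDual ℝ E) : Prop where
  maps : ∀ g, ∀ x ∈ X, T g x ∈ X
  one : ∀ x ∈ X, T 1 x = x
  mul : ∀ g h, ∀ x ∈ X, T (g * h) x = T g (T h x)
  ne : ∀ g, NE X (T g)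
  cont : ∀ g, ContinuousOn (T g) X

/-- Finite groups. -/
theorem Retr.fix_finite [CompleteSpace E] {C X : Set (WeakDual ℝ E)} (hC : IsCompact C)
    (hconv : Convex ℝ C) (hX : Retr C X) (G : Type*) [Group G] [Finite G]
    (T : G → WeakDual ℝ E → WeakDual ℝ E) (hT : Act G X T) :
    Retr C {x ∈ X | ∀ g, T g x = x} := by
  classical
  have := Fintype.ofFinite G
  obtain ⟨R, hR, hRid, hRne⟩ := hX.2.2
  set n : ℝ := (Fintype.card G : ℝ) with hn
  have hn0 : 0 < n := by
    rw [hn]
    exact_mod_cast Fintype.card_pos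
  have hsum : ∑ _g : G, n⁻¹ = 1 := by
    rw [Finset.sum_const, Finset.card_univ, nsmul_eq_mul, ← hn]
    exact mul_inv_cancel₀ hn0.ne'
  let P : WeakDual ℝ E → WeakDual ℝ E := fun u => ∑ g : G, n⁻¹ • T g (R u)
  have hPC : ∀ x ∈ C, P x ∈ C := fun x hx =>
    hconv.sum_mem (fun _ _ => by positivity) hsum (fun g _ => hX.2.1 (hT.maps g _ (hR x hx)))
  have hPne : NE C P := by
    intro x hx y hy
    refine (nd_sum _ _ (fun _ _ => by positivity) _ _).trans ?_
    calc ∑ g : G, n⁻¹ * nd (T g (R x)) (T g (R y)) ≤ ∑ _g : G, n⁻¹ * nd x y := by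
          refine Finset.sum_le_sum fun g _ => ?_
          refine mul_le_mul_of_nonneg_left ?_ (by positivity)
          exact (hT.ne g _ (hR x hx) _ (hR y hy)).trans (hRne x hx y hy)
      _ = nd x y := by rw [← Finset.sum_mul, hsum, one_mul]
  refine Retr.fix hC hconv hX R hR hRid hRne T hT.maps hT.cont P hPC hPne ?_ n hn0.le ?_
  · intro x hx hfix
    have h1 : ∀ g, T g (R x) = x := fun g => by rw [hRid x hx, hfix g]
    simp only [P, h1]
    rw [← Finset.sum_smul, hsum, one_smul]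
  · intro u hu
    set y := R u with hy
    have hyX : y ∈ X := hR u hu
    set ε := nd u (P u) with hε
    -- the function psi
    obtain ⟨m, hm⟩ := Finite.exists_max (fun g : G => nd (T g y) y)
    have key : nd (T m y) y ≤ ε + ∑ g : G, n⁻¹ * nd (T (g⁻¹ * m) y) y := by
      have hw : T m y ∈ X := hT.maps m y hyX
      have h1 : nd y (T m y) ≤ nd y (R (P u)) + nd (R (P u)) (T m y) := nd_triangle _ _ _
      have h2 : nd y (R (P u)) ≤ ε := hRne u hu (P u) (hPC u hu)
      have h3 : nd (R (P u)) (T m y) ≤ nd (P u) (T m y) := by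
        have := hRne (P u) (hPC u hu) (T m y) (hX.2.1 hw)
        rwa [hRid _ hw] at this
      have h4 : nd (P u) (T m y) ≤ ∑ g : G, n⁻¹ * nd (T g y) (T m y) := by
        have e : T m y = ∑ _g : G, n⁻¹ • T m y := by
          rw [← Finset.sum_smul, hsum, one_smul]
        calc nd (P u) (T m y) = nd (∑ g : G, n⁻¹ • T g y) (∑ _g : G, n⁻¹ • T m y) := by
              rw [← e]
          _ ≤ _ := nd_sum _ _ (fun _ _ => by positivity) _ _
      have h5 : ∑ g : G, n⁻¹ * nd (T g y) (T m y) ≤ ∑ g : G, n⁻¹ * nd (T (g⁻¹ * m) y) y := by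
        refine Finset.sum_le_sum fun g _ => ?_
        refine mul_le_mul_of_nonneg_left ?_ (by positivity)
        have e : T m y = T g (T (g⁻¹ * m) y) := by
          rw [← hT.mul _ _ y hyX, mul_inv_cancel_left]
        rw [e, nd_comm (T (g⁻¹ * m) y)]
        exact hT.ne g _ hyX _ (hT.maps _ _ hyX)
      rw [nd_comm]
      linarith
    have h6 : ∑ g : G, n⁻¹ * nd (T (g⁻¹ * m) y) y = ∑ k : G, n⁻¹ * nd (T k y) y := by
      refine Fintype.sum_bijective (fun g : G => g⁻¹ * m)
        ((Group.mulRight_bijective m).comp (Equiv.inv G).bijective) _ _ (fun g => rfl)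
    have h7 : ∑ k : G, n⁻¹ * nd (T k y) y ≤ (n - 1) * (n⁻¹ * nd (T m y) y) := by
      rw [← Finset.sum_erase_add _ _ (Finset.mem_univ (1 : G)), hT.one y hyX, nd_self, mul_zero,
        add_zero]
      have h8 : ∑ k ∈ Finset.univ.erase (1 : G), n⁻¹ * nd (T k y) y ≤
          ∑ _k ∈ Finset.univ.erase (1 : G), n⁻¹ * nd (T m y) y :=
        Finset.sum_le_sum fun k _ => mul_le_mul_of_nonneg_left (hm k) (by positivity)
      refine h8.trans (le_of_eq ?_)
      rw [Finset.sum_const, Finset.card_erase_of_mem (Finset.mem_univ _), Finset.card_univ,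
        nsmul_eq_mul, Nat.cast_sub Fintype.card_pos]
      simp [hn]
    have h9 : nd (T m y) y ≤ n * ε := by
      rw [h6] at key
      have h10 : nd (T m y) y ≤ ε + (n - 1) * (n⁻¹ * nd (T m y) y) := by linarith
      have h11 : n * n⁻¹ = 1 := mul_inv_cancel₀ hn0.ne'
      have h12 : (n - 1) * (n⁻¹ * nd (T m y) y) = nd (T m y) y - n⁻¹ * nd (T m y) y := by
        calc (n - 1) * (n⁻¹ * nd (T m y) y) = (n * n⁻¹) * nd (T m y) y - n⁻¹ * nd (T m y) y := by
              ring
          _ = _ := by rw [h11, one_mul]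
      have h13 : n⁻¹ * nd (T m y) y ≤ ε := by linarith
      calc nd (T m y) y = n * (n⁻¹ * nd (T m y) y) := by rw [← mul_assoc, h11, one_mul]
        _ ≤ n * ε := mul_le_mul_of_nonneg_left h13 hn0.le
    exact fun i => (hm i).trans h9

/-- Commuting families. -/
theorem Retr.fix_comm [CompleteSpace E] {C X : Set (WeakDual ℝ E)} (hC : IsCompact C)
    (hconv : Convex ℝ C) (hX : Retr C X) {ι : Type*}
    (T : ι → WeakDual ℝ E → WeakDual ℝ E) (hmaps : ∀ i, ∀ x ∈ X, T i x ∈ X)
    (hne : ∀ i, NE X (T i)) (hcont : ∀ i, ContinuousOn (T i) X)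
    (hcomm : ∀ i j, ∀ x ∈ X, T i (T j x) = T j (T i x)) :
    Retr C {x ∈ X | ∀ i, T i x = x} := by
  classical
  have key : ∀ F : Finset ι, Retr C {x ∈ X | ∀ i ∈ F, T i x = x} := by
    intro F
    induction F using Finset.induction_on with
    | empty =>
      have : {x ∈ X | ∀ i ∈ (∅ : Finset ι), T i x = x} = X := by
        ext x; simp
      rw [this]
      exact hX
    | insert a F _ ih =>
      have h1 := Retr.fix_one hC hconv ih (T a) (fun x hx => ⟨hmaps a x hx.1, fun i hi => by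
          rw [hcomm i a x hx.1, hx.2 i hi]⟩)
        (fun x hx y hy => hne a x hx.1 y hy.1) ((hcont a).mono fun x hx => hx.1)
      have : {x ∈ {x ∈ X | ∀ i ∈ F, T i x = x} | T a x = x} =
          {x ∈ X | ∀ i ∈ insert a F, T i x = x} := by
        ext x
        simp only [Set.mem_setOf_eq, Finset.mem_insert, forall_eq_or_imp]
        tauto
      rwa [this] at h1
  have h2 := Retr.iInter hC (fun F : Finset ι => {x ∈ X | ∀ i ∈ F, T i x = x}) key
    (fun F F' hFF x hx => ⟨hx.1, fun i hi => hx.2 i (hFF hi)⟩)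
  have : (⋂ F : Finset ι, {x ∈ X | ∀ i ∈ F, T i x = x}) = {x ∈ X | ∀ i, T i x = x} := by
    ext x
    simp only [Set.mem_iInter, Set.mem_setOf_eq]
    constructor
    · intro h
      exact ⟨(h ∅).1, fun i => (h {i}).2 i (Finset.mem_singleton_self i)⟩
    · intro h F
      exact ⟨h.1, fun i _ => h.2 i⟩
  rwa [this] at h2

end

/-- The property of a group that we prove for elementary amenable groups. -/
def PP (G : Type u) [Group G] : Prop :=
  ∀ (E : Type v) [NormedAddCommGroup E] [NormedSpace ℝ E] [CompleteSpace E]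
    (C X : Set (WeakDual ℝ E)), IsCompact C → Convex ℝ C → Retr C X →
    ∀ T : G → WeakDual ℝ E → WeakDual ℝ E, Act G X T → Retr C {x ∈ X | ∀ g, T g x = x}

theorem PP_surj {G Q : Type*} [Group G] [Group Q] (f : G →* Q) (hf : Function.Surjective f)
    (h : PP.{_, v} G) : PP.{_, v} Q := by
  intro E _ _ _ C X hC hconv hX T hT
  have h1 := h E C X hC hconv hX (fun g => T (f g))
    ⟨fun g => hT.maps _, fun x hx => by
      change T (f 1) x = x
      rw [map_one, hT.one x hx], fun g k x hx => by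
      change T (f (g * k)) x = _
      rw [map_mul, hT.mul _ _ x hx], fun g => hT.ne _, fun g => hT.cont _⟩
  have : {x ∈ X | ∀ g, T (f g) x = x} = {x ∈ X | ∀ q, T q x = x} := by
    ext x
    constructor
    · rintro ⟨h1, h2⟩
      refine ⟨h1, fun q => ?_⟩
      obtain ⟨g, rfl⟩ := hf q
      exact h2 g
    · rintro ⟨h1, h2⟩
      exact ⟨h1, fun g => h2 _⟩
  rwa [this] at h1

theorem PP_finite (G : Type u) [Group G] [Finite G] : PP.{u, v} G :=
  fun _ _ _ _ _ _ hC hconv hX T hT => Retr.fix_finite hC hconv hX G T hT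

theorem PP_comm (G : Type u) [Group G] (h : ∀ a b : G, a * b = b * a) : PP.{u, v} G := by
  intro E _ _ _ C X hC hconv hX T hT
  refine Retr.fix_comm hC hconv hX T hT.maps hT.ne hT.cont (fun a b x hx => ?_)
  rw [← hT.mul _ _ x hx, ← hT.mul _ _ x hx, h a b]

theorem PP_union (G : Type u) [Group G] (𝓢 : Set (Subgroup G)) (hne : 𝓢.Nonempty)
    (hdir : DirectedOn (· ≤ ·) 𝓢) (hcov : ∀ g, ∃ K ∈ 𝓢, g ∈ K)
    (h : ∀ K ∈ 𝓢, PP.{u, v} K) : PP.{u, v} G := by
  intro E _ _ _ C X hC hconv hX T hT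
  have hn : Nonempty 𝓢 := hne.to_subtype
  have hd : IsDirectedOrder 𝓢 := ⟨fun a b => by
    obtain ⟨c, hc, h1, h2⟩ := hdir a.1 a.2 b.1 b.2
    exact ⟨⟨c, hc⟩, h1, h2⟩⟩
  have key : ∀ K : 𝓢, Retr C {x ∈ X | ∀ g ∈ K.1, T g x = x} := by
    intro K
    have h1 := h K.1 K.2 E C X hC hconv hX (fun g => T g.1)
      ⟨fun g => hT.maps _, fun x hx => hT.one x hx, fun g k x hx => hT.mul _ _ x hx,
        fun g => hT.ne _, fun g => hT.cont _⟩
    have : {x ∈ X | ∀ g : K.1, T g.1 x = x} = {x ∈ X | ∀ g ∈ K.1, T g x = x} := by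
      ext x; simp
    rwa [this] at h1
  have h2 := Retr.iInter hC (fun K : 𝓢 => {x ∈ X | ∀ g ∈ K.1, T g x = x}) key
    (fun K K' hKK x hx => ⟨hx.1, fun g hg => hx.2 g (hKK hg)⟩)
  have : (⋂ K : 𝓢, {x ∈ X | ∀ g ∈ K.1, T g x = x}) = {x ∈ X | ∀ g, T g x = x} := by
    ext x
    simp only [Set.mem_iInter, Set.mem_setOf_eq]
    constructor
    · intro h
      refine ⟨(h hn.some).1, fun g => ?_⟩
      obtain ⟨K, hK, hg⟩ := hcov g
      exact (h ⟨K, hK⟩).2 g hg
    · intro h K
      exact ⟨h.1, fun g _ => h.2 g⟩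
  rwa [this] at h2

theorem PP_ext (G : Type u) [Group G] (N : Subgroup G) [N.Normal] (hN : PP.{u, v} N)
    (hQ : PP.{u, v} (G ⧸ N)) : PP.{u, v} G := by
  intro E _ _ _ C X hC hconv hX T hT
  have hY := hN E C X hC hconv hX (fun g => T g.1)
      ⟨fun g => hT.maps _, fun x hx => hT.one x hx, fun g k x hx => hT.mul _ _ x hx,
        fun g => hT.ne _, fun g => hT.cont _⟩
  set Y : Set (WeakDual ℝ E) := {x ∈ X | ∀ g : N, T g.1 x = x} with hYdef
  have hYinv : ∀ g, ∀ x ∈ Y, T g x ∈ Y := by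
    intro g x hx
    refine ⟨hT.maps g x hx.1, fun n => ?_⟩
    have e : n.1 * g = g * (g⁻¹ * n.1 * g) := by group
    have hmem : g⁻¹ * n.1 * g ∈ N := by
      have := (inferInstance : N.Normal).conj_mem n.1 n.2 g⁻¹
      simpa using this
    rw [← hT.mul _ _ x hx.1, e, hT.mul _ _ x hx.1]
    have := hx.2 ⟨_, hmem⟩
    change T (g⁻¹ * n.1 * g) x = x at this
    rw [this]
  have hwd : ∀ g g' : G, ∀ x ∈ Y, (QuotientGroup.mk g : G ⧸ N) = QuotientGroup.mk g' →
      T g x = T g' x := by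
    intro g g' x hx he
    have hmem : g⁻¹ * g' ∈ N := QuotientGroup.eq.1 he
    have e : g' = g * (g⁻¹ * g') := by group
    rw [e, hT.mul _ _ x hx.1]
    have := hx.2 ⟨_, hmem⟩
    change T (g⁻¹ * g') x = x at this
    rw [this]
  have hout : ∀ g : G, ∀ x ∈ Y, T (Quotient.out (QuotientGroup.mk g : G ⧸ N)) x = T g x :=
    fun g x hx => hwd _ _ x hx (Quotient.out_eq _)
  have h1 := hQ E C Y hC hconv hY (fun q => T (Quotient.out q))
    { maps := fun q => hYinv _
      one := fun x hx => by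
        have := hout 1 x hx
        rw [hT.one x hx.1] at this
        exact this
      mul := fun q r x hx => by
        induction q using QuotientGroup.induction_on with
        | H g =>
          induction r using QuotientGroup.induction_on with
          | H k =>
            rw [← QuotientGroup.mk_mul, hout _ x hx, hout k x hx, hout g _ (hYinv k x hx),
              hT.mul _ _ x hx.1]
      ne := fun q x hx y hy => hT.ne _ x hx.1 y hy.1
      cont := fun q => (hT.cont _).mono fun x hx => hx.1 }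
  have : {x ∈ Y | ∀ q : G ⧸ N, T (Quotient.out q) x = x} = {x ∈ X | ∀ g, T g x = x} := by
    ext x
    constructor
    · rintro ⟨hxY, h2⟩
      refine ⟨hxY.1, fun g => ?_⟩
      have := h2 (QuotientGroup.mk g)
      rwa [hout g x hxY] at this
    · rintro ⟨hxX, h2⟩
      exact ⟨⟨hxX, fun g => h2 _⟩, fun q => h2 _⟩
  rwa [this] at h1

end FStarLib
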