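import Mathlib

set_option autoImplicit false

/-! Nonexpansive retracts of weak-star compact convex sets. -/

namespace FStarLib

open Filter Topology WeakDual

variable {E : Type*} [NormedAddCommGroup E] [NormedSpace ℝ E]

/-- The dual norm distance on the weak dual. -/
noncomputable def nd (x y : WeakDual ℝ E) : ℝ := ‖toStrongDual x - toStrongDual y‖

theorem nd_nonneg (x y : WeakDual ℝ E) : 0 ≤ nd x y := norm_nonneg _

theorem nd_self (x : WeakDual ℝ E) : nd x x = 0 := by simp [nd]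

theorem nd_comm (x y : WeakDual ℝ E) : nd x y = nd y x := norm_sub_rev _ _

theorem nd_triangle (x y z : WeakDual ℝ E) : nd x z ≤ nd x y + nd y z := by
  unfold nd
  exact norm_sub_le_norm_sub_add_norm_sub _ _ _

theorem eq_of_nd_eq_zero {x y : WeakDual ℝ E} (h : nd x y = 0) : x = y := by
  unfold nd at h
  rw [norm_eq_zero, sub_eq_zero] at h
  exact toStrongDual.injective h

/-- Convexity of the distance. -/
theorem nd_comb (t : ℝ) (h0 : 0 ≤ t) (h1 : t ≤ 1) (x y a b : WeakDual ℝ E) :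
    nd ((1 - t) • x + t • a) ((1 - t) • y + t • b) ≤ (1 - t) * nd x y + t * nd a b := by
  unfold nd
  have e : toStrongDual ((1 - t) • x + t • a) - toStrongDual ((1 - t) • y + t • b) =
      (1 - t) • (toStrongDual x - toStrongDual y) + t • (toStrongDual a - toStrongDual b) := by
    simp only [map_add, map_smul, smul_sub]
    abel
  rw [e]
  refine (norm_add_le _ _).trans ?_
  rw [norm_smul, norm_smul, Real.norm_of_nonneg (by linarith), Real.norm_of_nonneg h0]

/-- Lower semicontinuity of the distance. -/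
theorem nd_le_of_tendsto {ι : Type*} {l : Filter ι} [l.NeBot] {u v : ι → WeakDual ℝ E}
    {x y : WeakDual ℝ E} (hu : Tendsto u l (𝓝 x)) (hv : Tendsto v l (𝓝 y)) {r : ℝ}
    (h : ∀ᶠ i in l, nd (u i) (v i) ≤ r) : nd x y ≤ r := by
  have h1 : Tendsto (fun i => u i - v i) l (𝓝 (x - y)) := hu.sub hv
  have hcl : IsClosed (toStrongDual ⁻¹' Metric.closedBall (0 : StrongDual ℝ E) r) :=
    isClosed_closedBall (𝕜 := ℝ) (E := E) 0 r
  have h2 := hcl.mem_of_tendsto h1 (h.mono fun i hi => by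
    rw [Set.mem_preimage, mem_closedBall_zero_iff, map_sub]
    exact hi)
  rw [Set.mem_preimage, mem_closedBall_zero_iff, map_sub] at h2
  exact h2

/-- Norm convergence to zero of the difference transfers weak-star limits. -/
theorem tendsto_of_nd {ι : Type*} {l : Filter ι} {u v : ι → WeakDual ℝ E}
    {x : WeakDual ℝ E} (hu : Tendsto u l (𝓝 x)) (h : Tendsto (fun i => nd (u i) (v i)) l (𝓝 0)) :
    Tendsto v l (𝓝 x) := by
  have h1 : Tendsto (fun i => toStrongDual (v i) - toStrongDual (u i)) l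
      (𝓝 (0 : StrongDual ℝ E)) := by
    rw [tendsto_zero_iff_norm_tendsto_zero]
    refine h.congr fun i => ?_
    rw [nd_comm]
    rfl
  have h2 := (NormedSpace.Dual.toWeakDual_continuous (𝕜 := ℝ) (E := E)).continuousAt.tendsto.comp h1
  have h3 : Tendsto (fun i => v i - u i) l (𝓝 0) := by
    refine (h2.congr fun i => ?_).trans ?_
    · simp only [Function.comp, map_sub]
      rfl
    · rw [map_zero]
  have h4 := hu.add h3
  rw [add_zero] at h4
  refine h4.congr fun i => ?_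
  abel

/-- Nonexpansive on `X`. -/
def NE (X : Set (WeakDual ℝ E)) (T : WeakDual ℝ E → WeakDual ℝ E) : Prop :=
  ∀ x ∈ X, ∀ y ∈ X, nd (T x) (T y) ≤ nd x y

/-- `X` is a weak-star closed nonexpansive retract of `C`. -/
def Retr (C X : Set (WeakDual ℝ E)) : Prop :=
  IsClosed X ∧ X ⊆ C ∧
    ∃ R : WeakDual ℝ E → WeakDual ℝ E, (∀ x ∈ C, R x ∈ X) ∧ (∀ x ∈ X, R x = x) ∧ NE C R

theorem Retr.nonempty {C X : Set (WeakDual ℝ E)} (h : Retr C X) (hC : C.Nonempty) :
    X.Nonempty := by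
  obtain ⟨x, hx⟩ := hC
  obtain ⟨_, _, R, hR, _⟩ := h
  exact ⟨R x, hR x hx⟩

/-- Limits of nonexpansive maps along an ultrafilter. -/
theorem exists_limit {C : Set (WeakDual ℝ E)} (hC : IsCompact C) {ι : Type*}
    (U : Ultrafilter ι) (R : ι → WeakDual ℝ E → WeakDual ℝ E) (hR : ∀ i, ∀ x ∈ C, R i x ∈ C)
    (hne : ∀ i, NE C (R i)) :
    ∃ S : WeakDual ℝ E → WeakDual ℝ E,
      (∀ x ∈ C, Tendsto (fun i => R i x) U (𝓝 (S x))) ∧ (∀ x ∈ C, S x ∈ C) ∧ NE C S := by
  have h1 : ∀ x : WeakDual ℝ E, ∃ y, x ∈ C → (Tendsto (fun i => R i x) U (𝓝 y) ∧ y ∈ C) := by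
    intro x
    by_cases hx : x ∈ C
    · have h2 : ((U.map (fun i => R i x) : Ultrafilter _) : Filter _) ≤ 𝓟 C := by
        rw [le_principal_iff]
        exact Filter.mem_map.2 (Filter.univ_mem' (fun i => hR i x hx))
      obtain ⟨y, hy, hle⟩ := hC.ultrafilter_le_nhds _ h2
      exact ⟨y, fun _ => ⟨hle, hy⟩⟩
    · exact ⟨x, fun h => absurd h hx⟩
  choose S hS using h1
  refine ⟨S, fun x hx => (hS x hx).1, fun x hx => (hS x hx).2, ?_⟩
  intro x hx y hy
  exact nd_le_of_tendsto (hS x hx).1 (hS y hy).1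
    (Filter.Eventually.of_forall fun i => hne i x hx y hy)

/-- Directed intersections of retracts are retracts. -/
theorem Retr.iInter {C : Set (WeakDual ℝ E)} (hC : IsCompact C) {ι : Type*} [Preorder ι]
    [IsDirectedOrder ι] [Nonempty ι] (X : ι → Set (WeakDual ℝ E)) (hX : ∀ i, Retr C (X i))
    (hanti : ∀ i j, i ≤ j → X j ⊆ X i) : Retr C (⋂ i, X i) := by
  refine ⟨isClosed_iInter fun i => (hX i).1, ?_, ?_⟩
  · intro x hx
    obtain ⟨i⟩ := ‹Nonempty ι›
    exact (hX i).2.1 (Set.mem_iInter.1 hx i)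
  choose R hR hid hne using fun i => (hX i).2.2
  obtain ⟨S, h1, h2, h3⟩ := exists_limit hC (Ultrafilter.of (atTop : Filter ι)) R
    (fun i x hx => (hX i).2.1 (hR i x hx)) hne
  refine ⟨S, ?_, ?_, h3⟩
  · intro x hx
    rw [Set.mem_iInter]
    intro i
    refine (hX i).1.mem_of_tendsto (h1 x hx) ?_
    have : ∀ᶠ j in atTop, i ≤ j := eventually_ge_atTop i
    exact (Ultrafilter.of_le (atTop : Filter ι)) (this.mono fun j hj => hanti i j hj (hR j x hx))
  · intro x hx
    have hxi : ∀ i, x ∈ X i := Set.mem_iInter.1 hx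
    have hxC : x ∈ C := by
      obtain ⟨i⟩ := ‹Nonempty ι›
      exact (hX i).2.1 (hxi i)
    have h4 : Tendsto (fun i => R i x) (Ultrafilter.of (atTop : Filter ι)) (𝓝 x) := by
      refine tendsto_const_nhds.congr fun i => ?_
      rw [hid i x (hxi i)]
    exact tendsto_nhds_unique (h1 x hxC) h4

theorem exists_diam [CompleteSpace E] {C : Set (WeakDual ℝ E)} (hC : IsCompact C) :
    ∃ M : ℝ, 0 ≤ M ∧ ∀ x ∈ C, ∀ y ∈ C, nd x y ≤ M := by
  have h1 : Bornology.IsVonNBounded ℝ C := by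
    let _ := IsTopologicalAddGroup.rightUniformSpace (WeakDual ℝ E)
    have : IsUniformAddGroup (WeakDual ℝ E) := isUniformAddGroup_of_addCommGroup
    exact hC.totallyBounded.isVonNBounded ℝ
  have h2 : Bornology.IsBounded C := (isBounded_iff_isVonNBounded (𝕜 := ℝ)).2 h1
  have h3 : Bornology.IsBounded (StrongDual.toWeakDual ⁻¹' C : Set (StrongDual ℝ E)) := h2
  obtain ⟨M, hM⟩ := (Metric.isBounded_iff).1 h3
  refine ⟨max M 0, le_max_right _ _, fun x hx y hy => ?_⟩
  have := hM (x := toStrongDual x) hx (y := toStrongDual y) hy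
  rw [dist_eq_norm] at this
  exact this.trans (le_max_left _ _)

/-- The nonlinear resolvent. -/
theorem exists_resolvent [CompleteSpace E] {C : Set (WeakDual ℝ E)} (hC : IsCompact C)
    (hconv : Convex ℝ C) (G : WeakDual ℝ E → WeakDual ℝ E) (hG : ∀ x ∈ C, G x ∈ C)
    (hne : NE C G) (t : ℝ) (h0 : 0 ≤ t) (h1 : t < 1) :
    ∃ J : WeakDual ℝ E → WeakDual ℝ E, (∀ x ∈ C, J x ∈ C) ∧
      (∀ x ∈ C, J x = (1 - t) • x + t • G (J x)) ∧ NE C J ∧ (∀ x ∈ C, G x = x → J x = x) := by
  have hmem : ∀ x ∈ C, ∀ u ∈ C, (1 - t) • x + t • G u ∈ C := fun x hx u hu =>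
    hconv hx (hG u hu) (by linarith) h0 (by ring)
  have huniq : ∀ x ∈ C, ∀ y ∈ C, ∀ u ∈ C, ∀ v ∈ C, u = (1 - t) • x + t • G u →
      v = (1 - t) • y + t • G v → nd u v ≤ nd x y := by
    intro x hx y hy u hu v hv hu' hv'
    have h2 : nd u v ≤ (1 - t) * nd x y + t * nd (G u) (G v) := by
      conv_lhs => rw [hu', hv']
      exact nd_comb t h0 h1.le _ _ _ _
    have h3 := hne u hu v hv
    have h4 : (1 - t) * nd u v ≤ (1 - t) * nd x y := by nlinarith
    exact le_of_mul_le_mul_left h4 (by linarith)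
  have hex : ∀ x : WeakDual ℝ E, ∃ u, x ∈ C → (u ∈ C ∧ u = (1 - t) • x + t • G u) := by
    intro x
    by_cases hx : x ∈ C
    · let C' : Set (StrongDual ℝ E) := StrongDual.toWeakDual ⁻¹' C
      have hcl : IsClosed C' :=
        hC.isClosed.preimage (NormedSpace.Dual.toWeakDual_continuous (𝕜 := ℝ) (E := E))
      let f : StrongDual ℝ E → StrongDual ℝ E := fun u =>
        toStrongDual ((1 - t) • x + t • G (StrongDual.toWeakDual u))
      have hf : Set.MapsTo f C' C' := fun u hu => hmem x hx _ hu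
      have hlip : ContractingWith ⟨t, h0⟩ (hf.restrict f C' C') := by
        refine ⟨by exact_mod_cast h1, ?_⟩
        refine LipschitzWith.of_dist_le_mul fun u v => ?_
        have h2 := nd_comb t h0 h1.le x x (G (StrongDual.toWeakDual u.1))
          (G (StrongDual.toWeakDual v.1))
        rw [nd_self, mul_zero, zero_add] at h2
        have h3 := hne _ u.2 _ v.2
        have h4 : dist (f u.1) (f v.1) ≤ t * dist u.1 v.1 := by
          rw [dist_eq_norm, dist_eq_norm]
          refine h2.trans ?_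
          exact mul_le_mul_of_nonneg_left h3 h0
        exact h4
      obtain ⟨u, huC, hfix, _⟩ := hlip.exists_fixedPoint' hcl.isComplete hf
        (x := toStrongDual x) hx (edist_ne_top _ _)
      refine ⟨StrongDual.toWeakDual u, fun _ => ⟨huC, ?_⟩⟩
      have : f u = u := hfix
      conv_lhs => rw [← this]
      rfl
    · exact ⟨x, fun h => absurd h hx⟩
  choose J hJ using hex
  refine ⟨J, fun x hx => (hJ x hx).1, fun x hx => (hJ x hx).2, ?_, ?_⟩
  · intro x hx y hy
    exact huniq x hx y hy _ (hJ x hx).1 _ (hJ y hy).1 (hJ x hx).2 (hJ y hy).2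
  · intro x hx hGx
    have h2 : x = (1 - t) • x + t • G x := by
      rw [hGx, ← add_smul, sub_add_cancel, one_smul]
    have h3 := huniq x hx x hx _ (hJ x hx).1 x hx (hJ x hx).2 h2
    rw [nd_self] at h3
    exact eq_of_nd_eq_zero (le_antisymm h3 (nd_nonneg _ _))

theorem isClosed_fix {X : Set (WeakDual ℝ E)} (hX : IsClosed X) {ι : Type*}
    (T : ι → WeakDual ℝ E → WeakDual ℝ E) (hTc : ∀ i, ContinuousOn (T i) X) :
    IsClosed {x ∈ X | ∀ i, T i x = x} := by
  refine isClosed_of_closure_subset fun x hx => ?_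
  have hxX : x ∈ X := by
    have h1 : closure {x ∈ X | ∀ i, T i x = x} ⊆ X :=
      closure_minimal (fun y hy => hy.1) hX
    exact h1 hx
  refine ⟨hxX, fun i => ?_⟩
  have hne : (𝓝[{x ∈ X | ∀ i, T i x = x}] x).NeBot := mem_closure_iff_nhdsWithin_neBot.1 hx
  have h1 : Tendsto (T i) (𝓝[{x ∈ X | ∀ i, T i x = x}] x) (𝓝 (T i x)) :=
    (hTc i x hxX).mono_left (nhdsWithin_mono x (fun y hy => hy.1))
  have h2 : Tendsto (T i) (𝓝[{x ∈ X | ∀ i, T i x = x}] x) (𝓝 x) := by
    have h3 : Tendsto (fun y : WeakDual ℝ E => y) (𝓝[{x ∈ X | ∀ i, T i x = x}] x) (𝓝 x) :=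
      tendsto_id.mono_left nhdsWithin_le_nhds
    refine h3.congr' ?_
    filter_upwards [self_mem_nhdsWithin] with y hy
    exact (hy.2 i).symm
  exact tendsto_nhds_unique h1 h2

/-- The main lemma: approximate fixed points give a retraction. -/
theorem Retr.fix [CompleteSpace E] {C X : Set (WeakDual ℝ E)} (hC : IsCompact C)
    (hconv : Convex ℝ C) (hX : Retr C X) (R : WeakDual ℝ E → WeakDual ℝ E)
    (hR : ∀ x ∈ C, R x ∈ X) (hRid : ∀ x ∈ X, R x = x) (hRne : NE C R)
    {ι : Type*} (T : ι → WeakDual ℝ E → WeakDual ℝ E)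
    (hT : ∀ i, ∀ x ∈ X, T i x ∈ X) (hTc : ∀ i, ContinuousOn (T i) X)
    (G : WeakDual ℝ E → WeakDual ℝ E) (hG : ∀ x ∈ C, G x ∈ C) (hGne : NE C G)
    (hGfix : ∀ x ∈ X, (∀ i, T i x = x) → G x = x)
    (K : ℝ) (hK0 : 0 ≤ K) (hK : ∀ u ∈ C, ∀ i, nd (T i (R u)) (R u) ≤ K * nd u (G u)) :
    Retr C {x ∈ X | ∀ i, T i x = x} := by
  obtain ⟨M, hM0, hM⟩ := exists_diam hC
  have ht : ∀ n : ℕ, 0 ≤ 1 - 1 / ((n : ℝ) + 1) ∧ 1 - 1 / ((n : ℝ) + 1) < 1 := by
    intro n
    have h1 : 0 < 1 / ((n : ℝ) + 1) := by positivity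
    have h2 : 1 / ((n : ℝ) + 1) ≤ 1 := by
      rw [div_le_one (by positivity)]
      have : (0 : ℝ) ≤ n := Nat.cast_nonneg n
      linarith
    constructor <;> linarith
  choose J hJC hJeq hJne hJfix using fun n : ℕ =>
    exists_resolvent hC hconv G hG hGne (1 - 1 / ((n : ℝ) + 1)) (ht n).1 (ht n).2
  have hsmall : ∀ x ∈ C, Tendsto (fun n => nd (J n x) (G (J n x))) atTop (𝓝 0) := by
    intro x hx
    have h1 : ∀ n : ℕ, nd (J n x) (G (J n x)) ≤ 1 / ((n : ℝ) + 1) * M := by
      intro n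
      have h2 : nd (J n x) (G (J n x)) = 1 / ((n : ℝ) + 1) * nd x (G (J n x)) := by
        have e : J n x - G (J n x) = (1 / ((n : ℝ) + 1)) • (x - G (J n x)) := by
          have h := hJeq n x hx
          generalize G (J n x) = g at h ⊢
          rw [h]
          module
        have e2 : toStrongDual (J n x) - toStrongDual (G (J n x)) =
            (1 / ((n : ℝ) + 1)) • (toStrongDual x - toStrongDual (G (J n x))) := by
          rw [← map_sub, e, map_smul, map_sub]
        unfold nd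
        rw [e2, norm_smul, Real.norm_of_nonneg (by positivity)]
      rw [h2]
      exact mul_le_mul_of_nonneg_left (hM x hx _ (hG _ (hJC n x hx))) (by positivity)
    have h3 : Tendsto (fun n : ℕ => 1 / ((n : ℝ) + 1) * M) atTop (𝓝 (0 * M)) :=
      tendsto_one_div_add_atTop_nhds_zero_nat.mul_const M
    rw [zero_mul] at h3
    exact squeeze_zero (fun n => nd_nonneg _ _) h1 h3
  let U : Ultrafilter ℕ := Ultrafilter.of atTop
  have hU : (U : Filter ℕ) ≤ atTop := Ultrafilter.of_le _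
  obtain ⟨S, hS1, hS2, hS3⟩ := exists_limit hC U (fun n x => R (J n x))
    (fun n x hx => hX.2.1 (hR _ (hJC n x hx)))
    (fun n x hx y hy => (hRne _ (hJC n x hx) _ (hJC n y hy)).trans (hJne n x hx y hy))
  have hSX : ∀ x ∈ C, S x ∈ X := fun x hx =>
    hX.1.mem_of_tendsto (hS1 x hx) (Filter.Eventually.of_forall fun n => hR _ (hJC n x hx))
  refine ⟨?_, ?_, S, ?_, ?_, hS3⟩
  · exact isClosed_fix hX.1 T hTc
  · exact fun x hx => hX.2.1 hx.1
  · intro x hx
    refine ⟨hSX x hx, fun i => ?_⟩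
    have h1 : Tendsto (fun n => T i (R (J n x))) U (𝓝 (T i (S x))) := by
      have h2 := (hTc i (S x) (hSX x hx))
      refine h2.tendsto.comp ?_
      rw [tendsto_nhdsWithin_iff]
      exact ⟨hS1 x hx, Filter.Eventually.of_forall fun n => hR _ (hJC n x hx)⟩
    have h2 : Tendsto (fun n => nd (R (J n x)) (T i (R (J n x)))) U (𝓝 0) := by
      have h3 : Tendsto (fun n => K * nd (J n x) (G (J n x))) U (𝓝 0) := by
        have := ((hsmall x hx).mono_left hU).const_mul K
        rwa [mul_zero] at this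
      refine squeeze_zero (fun n => nd_nonneg _ _) (fun n => ?_) h3
      rw [nd_comm]
      exact hK _ (hJC n x hx) i
    exact tendsto_nhds_unique h1 (tendsto_of_nd (hS1 x hx) h2)
  · intro x hx
    have hxC := hX.2.1 hx.1
    have h1 : ∀ n, R (J n x) = x := fun n => by
      rw [hJfix n x hxC (hGfix x hx.1 hx.2), hRid x hx.1]
    have h2 := hS1 x hxC
    simp only [h1] at h2
    exact tendsto_nhds_unique h2 tendsto_const_nhds

end FStarLib
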