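import Pool.Agent.Lib.MP_f4bd1c_an.Groups

set_option autoImplicit false

/-! The fixed point property for semigroups, with retractions. -/

namespace FStarLib

open Filter Topology WeakDual

universe u v

section

variable {E : Type*} [NormedAddCommGroup E] [NormedSpace ℝ E]

/-- An action of a semigroup on a set by nonexpansive weak-star continuous maps. -/
structure ActS (S : Type*) [Semigroup S] (X : Set (WeakDual ℝ E))
    (T : S → WeakDual ℝ E → WeakDual ℝ E) : Prop where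
  maps : ∀ g, ∀ x ∈ X, T g x ∈ X
  mul : ∀ g h, ∀ x ∈ X, T (g * h) x = T g (T h x)
  ne : ∀ g, NE X (T g)
  cont : ∀ g, ContinuousOn (T g) X

end

/-- The property of a semigroup that we prove. -/
def PPS (S : Type u) [Semigroup S] : Prop :=
  ∀ (E : Type v) [NormedAddCommGroup E] [NormedSpace ℝ E] [CompleteSpace E]
    (C X : Set (WeakDual ℝ E)), IsCompact C → Convex ℝ C → Retr C X →
    ∀ T : S → WeakDual ℝ E → WeakDual ℝ E, ActS S X T → Retr C {x ∈ X | ∀ g, T g x = x}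

theorem PPS_group (G : Type u) [Group G] (h : PP.{u, v} G) : PPS.{u, v} G := by
  intro E _ _ _ C X hC hconv hX T hT
  have h1 := Retr.fix_one hC hconv hX (T 1) (hT.maps 1) (hT.ne 1) (hT.cont 1)
  have h2 := h E C _ hC hconv h1 T
    { maps := fun g x hx => ⟨hT.maps g x hx.1, by rw [← hT.mul _ _ x hx.1, one_mul]⟩
      one := fun x hx => hx.2
      mul := fun g k x hx => hT.mul g k x hx.1
      ne := fun g x hx y hy => hT.ne g x hx.1 y hy.1
      cont := fun g => (hT.cont g).mono fun x hx => hx.1 }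
  have : {x ∈ {x ∈ X | T 1 x = x} | ∀ g, T g x = x} = {x ∈ X | ∀ g, T g x = x} := by
    ext x
    constructor
    · rintro ⟨h1, h2⟩
      exact ⟨h1.1, h2⟩
    · rintro ⟨h1, h2⟩
      exact ⟨⟨h1, h2 1⟩, h2⟩
  rwa [this] at h2

theorem PPS_comm (S : Type u) [Semigroup S] (h : ∀ a b : S, a * b = b * a) : PPS.{u, v} S := by
  intro E _ _ _ C X hC hconv hX T hT
  refine Retr.fix_comm hC hconv hX T hT.maps hT.ne hT.cont (fun a b x hx => ?_)
  rw [← hT.mul _ _ x hx, ← hT.mul _ _ x hx, h a b]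

theorem PPS_surj {S Q : Type*} [Semigroup S] [Semigroup Q] (f : S →ₙ* Q)
    (hf : Function.Surjective f) (h : PPS.{_, v} S) : PPS.{_, v} Q := by
  intro E _ _ _ C X hC hconv hX T hT
  have h1 := h E C X hC hconv hX (fun g => T (f g))
    ⟨fun g => hT.maps _, fun g k x hx => by
      change T (f (g * k)) x = _
      rw [map_mul, hT.mul _ _ x hx], fun g => hT.ne _, fun g => hT.cont _⟩
  have : {x ∈ X | ∀ g, T (f g) x = x} = {x ∈ X | ∀ q, T q x = x} := by
    ext x
    constructor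
    · rintro ⟨h1, h2⟩
      refine ⟨h1, fun q => ?_⟩
      obtain ⟨g, rfl⟩ := hf q
      exact h2 g
    · rintro ⟨h1, h2⟩
      exact ⟨h1, fun g => h2 _⟩
  rwa [this] at h1

theorem sub_act {E : Type*} [NormedAddCommGroup E] [NormedSpace ℝ E] {S : Type u} [Semigroup S]
    (I : Subsemigroup S) {X : Set (WeakDual ℝ E)}
    {T : S → WeakDual ℝ E → WeakDual ℝ E} (hT : ActS S X T) : ActS I X (fun g => T g.1) :=
  ⟨fun g => hT.maps _, fun g k x hx => hT.mul _ _ x hx, fun g => hT.ne _, fun g => hT.cont _⟩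

theorem PPS_ideal (S : Type u) [Semigroup S] (I : Subsemigroup S) (hI : (I : Set S).Nonempty)
    (hl : ∀ s : S, ∀ i ∈ I, s * i ∈ I) (h : PPS.{u, v} I) : PPS.{u, v} S := by
  intro E _ _ _ C X hC hconv hX T hT
  have h1 := h E C X hC hconv hX _ (sub_act I hT)
  have : {x ∈ X | ∀ g : I, T g.1 x = x} = {x ∈ X | ∀ g, T g x = x} := by
    ext x
    constructor
    · rintro ⟨h1, h2⟩
      refine ⟨h1, fun s => ?_⟩
      obtain ⟨i, hi⟩ := hI
      have e1 : T i x = x := h2 ⟨i, hi⟩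
      have e2 : T (s * i) x = x := h2 ⟨s * i, hl s i hi⟩
      rw [hT.mul _ _ x h1, e1] at e2
      exact e2
    · rintro ⟨h1, h2⟩
      exact ⟨h1, fun g => h2 _⟩
  rwa [this] at h1

theorem PPS_union (S : Type u) [Semigroup S] (𝓢 : Set (Subsemigroup S)) (hne : 𝓢.Nonempty)
    (hdir : DirectedOn (· ≤ ·) 𝓢) (hcov : ∀ g, ∃ K ∈ 𝓢, g ∈ K)
    (h : ∀ K ∈ 𝓢, PPS.{u, v} K) : PPS.{u, v} S := by
  intro E _ _ _ C X hC hconv hX T hT
  have hn : Nonempty 𝓢 := hne.to_subtype
  have hd : IsDirectedOrder 𝓢 := ⟨fun a b => by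
    obtain ⟨c, hc, h1, h2⟩ := hdir a.1 a.2 b.1 b.2
    exact ⟨⟨c, hc⟩, h1, h2⟩⟩
  have key : ∀ K : 𝓢, Retr C {x ∈ X | ∀ g ∈ K.1, T g x = x} := by
    intro K
    have h1 := h K.1 K.2 E C X hC hconv hX _ (sub_act K.1 hT)
    have : {x ∈ X | ∀ g : K.1, T g.1 x = x} = {x ∈ X | ∀ g ∈ K.1, T g x = x} := by
      ext x; simp
    rwa [this] at h1
  have h2 := Retr.iInter hC (fun K : 𝓢 => {x ∈ X | ∀ g ∈ K.1, T g x = x}) key
    (fun K K' hKK x hx => ⟨hx.1, fun g hg => hx.2 g (hKK hg)⟩)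
  have : (⋂ K : 𝓢, {x ∈ X | ∀ g ∈ K.1, T g x = x}) = {x ∈ X | ∀ g, T g x = x} := by
    ext x
    simp only [Set.mem_iInter]
    constructor
    · intro h
      refine ⟨(h hn.some).1, fun g => ?_⟩
      obtain ⟨K, hK, hg⟩ := hcov g
      exact (h ⟨K, hK⟩).2 g hg
    · intro h K
      exact ⟨h.1, fun g _ => h.2 g⟩
  rwa [this] at h2

theorem PPS_ext (S Q : Type u) [Semigroup S] [Semigroup Q] (N : Subsemigroup S) (π : S →ₙ* Q)
    (hπ : Function.Surjective π) (h1 : ∀ s : S, ∀ n ∈ N, ∃ n' ∈ N, n * s = s * n')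
    (h2 : ∀ s t : S, π s = π t → ∃ n ∈ N, ∃ n' ∈ N, s * n = t * n')
    (hN : PPS.{u, v} N) (hQ : PPS.{u, v} Q) : PPS.{u, v} S := by
  intro E _ _ _ C X hC hconv hX T hT
  have hY := hN E C X hC hconv hX _ (sub_act N hT)
  set Y : Set (WeakDual ℝ E) := {x ∈ X | ∀ g : N, T g.1 x = x} with hYdef
  have hYn : ∀ x ∈ Y, ∀ n ∈ N, T n x = x := fun x hx n hn => hx.2 ⟨n, hn⟩
  have hYinv : ∀ g, ∀ x ∈ Y, T g x ∈ Y := by
    intro g x hx
    refine ⟨hT.maps g x hx.1, fun n => ?_⟩
    obtain ⟨n', hn', e⟩ := h1 g n.1 n.2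
    rw [← hT.mul _ _ x hx.1, e, hT.mul _ _ x hx.1, hYn x hx n' hn']
  have hwd : ∀ s t : S, ∀ x ∈ Y, π s = π t → T s x = T t x := by
    intro s t x hx he
    obtain ⟨n, hn, n', hn', e⟩ := h2 s t he
    have e1 : T s x = T (s * n) x := by rw [hT.mul _ _ x hx.1, hYn x hx n hn]
    rw [e1, e, hT.mul _ _ x hx.1, hYn x hx n' hn']
  choose σ hσ using hπ
  have h3 := hQ E C Y hC hconv hY (fun q => T (σ q))
    { maps := fun q => hYinv _
      mul := fun q r x hx => by
        change T (σ (q * r)) x = T (σ q) (T (σ r) x)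
        rw [← hT.mul _ _ x hx.1]
        apply hwd _ _ x hx
        rw [hσ, map_mul, hσ, hσ]
      ne := fun q x hx y hy => hT.ne _ x hx.1 y hy.1
      cont := fun q => (hT.cont _).mono fun x hx => hx.1 }
  have : {x ∈ Y | ∀ q : Q, T (σ q) x = x} = {x ∈ X | ∀ g, T g x = x} := by
    ext x
    constructor
    · rintro ⟨hxY, h2⟩
      refine ⟨hxY.1, fun g => ?_⟩
      have := h2 (π g)
      rwa [hwd _ g x hxY (hσ _)] at this
    · rintro ⟨hxX, h2⟩
      exact ⟨⟨hxX, fun g => h2 _⟩, fun q => h2 _⟩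
  rwa [this] at h3

/-- The passage to semitopological semigroups. -/
theorem final {S : Type*} [Semigroup S] [TopologicalSpace S] {D : Type*} [Semigroup D]
    (hD : PPS.{_, v} D) (φ : D →ₙ* S) (I : Set S) (hI : I.Nonempty)
    (hl : ∀ s : S, ∀ i ∈ I, s * i ∈ I) (hcl : I ⊆ closure (Set.range φ))
    (E : Type v) [NormedAddCommGroup E] [NormedSpace ℝ E] [CompleteSpace E]
    (C : Set (WeakDual ℝ E)) (hC : IsCompact C) (hconv : Convex ℝ C)
    (T : S → WeakDual ℝ E → WeakDual ℝ E) (hmaps : ∀ s, ∀ x ∈ C, T s x ∈ C)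
    (hmul : ∀ s t, ∀ x ∈ C, T (s * t) x = T s (T t x)) (hne : ∀ s, NE C (T s))
    (hcont : ContinuousOn (fun p : S × WeakDual ℝ E => T p.1 p.2) (Set.univ ×ˢ C)) :
    Retr C {x ∈ C | ∀ s, T s x = x} := by
  have hC0 : Retr C C := ⟨hC.isClosed, subset_rfl, id, fun x hx => hx, fun x _ => rfl,
    fun x _ y _ => le_rfl⟩
  have hcs : ∀ s, ContinuousOn (T s) C := by
    intro s
    have h1 : ContinuousOn (fun x : WeakDual ℝ E => ((s, x) : S × WeakDual ℝ E)) C :=
      (Continuous.prodMk_right s).continuousOn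
    exact hcont.comp h1 (fun x hx => ⟨Set.mem_univ _, hx⟩)
  have h1 := hD E C C hC hconv hC0 (fun d => T (φ d))
    ⟨fun d => hmaps _, fun d e x hx => by
      change T (φ (d * e)) x = _
      rw [map_mul, hmul _ _ x hx], fun d => hne _, fun d => hcs _⟩
  have : {x ∈ C | ∀ d, T (φ d) x = x} = {x ∈ C | ∀ s, T s x = x} := by
    ext x
    constructor
    · rintro ⟨hx, h2⟩
      have hclosed : IsClosed {s : S | T s x = x} := by
        have h3 : Continuous fun s : S => T s x := by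
          rw [← continuousOn_univ]
          have h4 : ContinuousOn (fun s : S => ((s, x) : S × WeakDual ℝ E)) Set.univ :=
            (Continuous.prodMk_left x).continuousOn
          exact hcont.comp h4 (fun s _ => ⟨Set.mem_univ _, hx⟩)
        exact isClosed_eq h3 continuous_const
      have h5 : ∀ i ∈ I, T i x = x := by
        intro i hi
        have h6 : closure (Set.range φ) ⊆ {s : S | T s x = x} := by
          refine closure_minimal ?_ hclosed
          rintro s ⟨d, rfl⟩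
          exact h2 d
        exact h6 (hcl hi)
      refine ⟨hx, fun s => ?_⟩
      obtain ⟨i, hi⟩ := hI
      have e2 := h5 (s * i) (hl s i hi)
      rw [hmul _ _ x hx, h5 i hi] at e2
      exact e2
    · rintro ⟨hx, h2⟩
      exact ⟨hx, fun d => h2 _⟩
  rwa [this] at h1

end FStarLib
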